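import Pool.Agent.H37.CTO.Stmts
import Pool.Agent.H25.CTL.T54

/-!
# Row P5D of the board `cto`: orders of the coefficients
-/

set_option autoImplicit false

namespace Pool.CND

open Finset Polynomial

namespace P5D

variable {k L : Type} [Field k] [Field L] [Algebra k L] (P : Place k L)

theorem ord_prod {ι : Type} (s : Finset ι) (f : ι → L) (n : ℤ)
    (h : ∀ i ∈ s, f i ≠ 0 ∧ P.ord (f i) = n) :
    ∏ i ∈ s, f i ≠ 0 ∧ P.ord (∏ i ∈ s, f i) = s.card * n := by
  classical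
  induction s using Finset.induction_on with
  | empty => exact ⟨by simp, by simp [P.ord_one]⟩
  | insert a s ha ih =>
    have h1 := ih (fun i hi => h i (Finset.mem_insert_of_mem hi))
    have h2 := h a (Finset.mem_insert_self a s)
    rw [Finset.prod_insert ha, Finset.card_insert_of_notMem ha]
    refine ⟨mul_ne_zero h2.1 h1.1, ?_⟩
    rw [P.ord_mul _ _ h2.1 h1.1, h1.2, h2.2]
    push_cast
    ring

end P5D

theorem p5d_thm (h54 : S_P54) : S_P5D := by
  intro p k F L _ _ _ _ _ _ _ f q s t X Y Yt Yp P r hp hp2 hchar hf hq hF hR hO hY eA eB eC eD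
  have : Fact p.Prime := ⟨hp⟩
  have : CharP L p := charP_of_injective_algebraMap (algebraMap k L).injective p
  have hp3 : 3 ≤ p := by
    have := hp.two_le
    omega
  have hq3 : 3 ≤ q := by
    rw [hq]
    calc 3 ≤ p := hp3
      _ = p ^ 1 := (pow_one p).symm
      _ ≤ p ^ f := Nat.pow_le_pow_right (by omega) hf
  obtain ⟨-, hYo, -, hYt0, hYto, -⟩ :=
    h54 p k F L f q s t X Y Yt Yp P hp hp2 hchar hf hq hF hR hO hY
  obtain ⟨e, he⟩ : ∃ e : ℤ, e = -P.ord t := ⟨_, rfl⟩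
  have hte : P.ord t = -e := by omega
  have he1 : 1 ≤ e := by
    have := hO.neg
    omega
  have ht : t ≠ 0 := by
    rintro rfl
    exact hR.tr isAlgebraic_zero
  obtain ⟨u, hu⟩ : ∃ u : ℤ, u = (q : ℤ) ^ s := ⟨_, rfl⟩
  obtain ⟨a, ha⟩ : ∃ a : ℤ, a = (q : ℤ) := ⟨_, rfl⟩
  have ha3 : 3 ≤ a := by rw [ha]; exact_mod_cast hq3
  have hu1 : 1 ≤ u := by
    rw [hu]
    have : 1 ≤ q ^ s := Nat.one_le_pow _ _ (by omega)
    exact_mod_cast this
  have hQz : (q : ℤ) ^ (s + 1) = a * u := by rw [hu, ha, pow_succ]; ring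
  have hQ2z : (q : ℤ) ^ (s + 2) = a * (a * u) := by rw [hu, ha, pow_succ, pow_succ]; ring
  have hau : 3 ≤ a * u := by nlinarith
  have hq1z : ((q - 1 : ℕ) : ℤ) = a - 1 := by
    rw [ha]
    have : 1 ≤ q := by omega
    push_cast [this]
    ring
  have h2c : P.Ge (2 : L) 0 := by
    have := P.ge_const (2 : k)
    rwa [map_ofNat] at this
  -- the order of `Yp`
  have hfac : ∀ c : Fin (s + 1) → F, (Yt + ∑ l, cst k F L (c l) * Y l) ≠ 0 ∧
      P.ord (Yt + ∑ l, cst k F L (c l) * Y l) = -e := by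
    intro c
    have h1 := P.ord_add_of_lt (x := Yt) (y := ∑ l, cst k F L (c l) * Y l) hYt0 (by
      refine P.ge_sum _ _ _ ?_
      intro l _
      have h2 : P.ord Yt + 1 ≤ P.ord (Y l) := by
        have h3 := hYo l
        rw [hQz, hte] at h3
        rw [hYto, hte]
        by_contra hc
        rw [not_le] at hc
        have h4 : P.ord (Y l) + e ≤ 0 := by omega
        have h5 : (a * u - 1) * (P.ord (Y l) + e) ≤ 0 :=
          mul_nonpos_of_nonneg_of_nonpos (by omega) h4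
        nlinarith
      exact P.ge_mono (P.ge_mul (P.ge_const _) (P.ge_ord (Y l))) (by omega))
    exact ⟨h1.1, by rw [h1.2, hYto, hte]⟩
  have hYp := P5D.ord_prod P (Finset.univ : Finset (Fin (s + 1) → F))
    (fun c => Yt + ∑ l, cst k F L (c l) * Y l) (-e) (fun c _ => hfac c)
  rw [← hY.yp] at hYp
  have hcard : ((Finset.univ : Finset (Fin (s + 1) → F)).card : ℤ) = a * u := by
    rw [Finset.card_univ, Fintype.card_fun, Fintype.card_fin, ← Nat.card_eq_fintype_card, hF,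
      ← hQz]
    push_cast
    ring
  rw [hcard] at hYp
  obtain ⟨hYp0, hYpo⟩ := hYp
  have hA0 : Yp ^ (q - 1) ≠ 0 := pow_ne_zero _ hYp0
  have hAo : P.ord (Yp ^ (q - 1)) = -((a - 1) * (a * u) * e) := by
    rw [P.ord_pow hYp0, hq1z, hYpo]
    ring
  -- `r 0`
  have hr0 : r 0 ≠ 0 := by
    intro h0
    rw [h0, mul_zero] at eA
    exact one_ne_zero (neg_eq_zero.1 eA.symm)
  have hr0o : P.ord (r 0) = (a - 1) * (a * u) * e := by
    have h1 := P.ord_mul _ _ hA0 hr0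
    rw [eA, P.ord_neg_one, hAo] at h1
    linarith
  -- `r 1`
  have hMz : ((q ^ (s + 2) - 2 : ℕ) : ℤ) = a * (a * u) - 2 := by
    have h1 : 2 ≤ q ^ (s + 2) := by
      have h2 : (2 : ℤ) ≤ (q : ℤ) ^ (s + 2) := by
        rw [hQ2z]
        nlinarith
      exact_mod_cast h2
    push_cast [h1]
    rw [hQ2z]
  have hmul : Yp ^ (q - 1) * r 1 ≠ 0 ∧
      P.ord (Yp ^ (q - 1) * r 1) = -((a * (a * u) - 2) * e) := by
    have h1 : Yp ^ (q - 1) * r 1 = -t ^ (q ^ (s + 2) - 2) + r 0 ^ q := by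
      linear_combination -eB
    have h2 : P.ord (-t ^ (q ^ (s + 2) - 2)) = -((a * (a * u) - 2) * e) := by
      rw [P.ord_neg, P.ord_pow ht, hMz, hte]
      ring
    have h3 := P.ord_add_of_lt (x := -t ^ (q ^ (s + 2) - 2)) (y := r 0 ^ q)
      (neg_ne_zero.2 (pow_ne_zero _ ht)) (by
        refine Or.inr ?_
        rw [h2, P.ord_pow hr0, hr0o, ← ha]
        have h4 : 1 ≤ (a * (a * u) - 2) * e := by
          have : 1 ≤ a * (a * u) - 2 := by nlinarith
          nlinarith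
        have h5 : 0 ≤ a * ((a - 1) * (a * u) * e) := by
          have : 0 ≤ a - 1 := by omega
          positivity
        omega)
    rw [h1]
    exact ⟨h3.1, by rw [h3.2, h2]⟩
  have hr1 : r 1 ≠ 0 := by
    intro h0
    exact hmul.1 (by rw [h0, mul_zero])
  have hr1o : P.ord (r 1) = -((a * u - 2) * e) := by
    have h1 := P.ord_mul _ _ hA0 hr1
    rw [hmul.2, hAo] at h1
    linarith
  -- `r i`
  have hri : ∀ j : ℕ, j ≤ s → r (j + 1) ≠ 0 ∧
      P.ord (r (j + 1)) = -((a * u - 2 * (q : ℤ) ^ j) * e) := by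
    intro j
    induction j with
    | zero =>
      intro _
      refine ⟨hr1, ?_⟩
      rw [pow_zero, mul_one]
      exact hr1o
    | succ j ih =>
      intro hj
      obtain ⟨h1, h2⟩ := ih (by omega)
      have h3 := eC (j + 1 + 1) (by omega) (by omega)
      rw [show j + 1 + 1 - 1 = j + 1 from rfl] at h3
      have h4 : r (j + 1 + 1) ≠ 0 := by
        intro h0
        rw [h0, mul_zero] at h3
        exact pow_ne_zero _ h1 h3
      refine ⟨h4, ?_⟩
      have h5 := P.ord_mul _ _ hA0 h4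
      rw [← h3, P.ord_pow h1, h2, hAo, ← ha] at h5
      rw [pow_succ, ← ha]
      linear_combination -h5
  refine ⟨?_, ?_, ?_, ?_⟩
  · rw [hYpo, hQz, hte]
  · rw [hr0o, hQz, hte, ← ha]
    ring
  · intro i hi1 hi2
    obtain ⟨j, rfl⟩ : ∃ j, i = j + 1 := ⟨i - 1, by omega⟩
    rw [(hri j (by omega)).2, hQz, hte, Nat.add_sub_cancel]
    ring
  -- `ζ`
  obtain ⟨K, hK⟩ : ∃ K : ℕ, K = (q - 1) * q ^ (s + 1) := ⟨_, rfl⟩
  have hKz : (K : ℤ) = (a - 1) * (a * u) := by
    rw [hK, Nat.cast_mul, hq1z, Nat.cast_pow, hQz]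
  have hK1 : 1 ≤ K := by
    have : (1 : ℤ) ≤ (K : ℤ) := by
      rw [hKz]
      nlinarith
    exact_mod_cast this
  rw [← hK] at eD
  obtain ⟨hrs0, hrso⟩ := hri s le_rfl
  have hrq : P.Ge (r (s + 1) ^ q * (t ^ K)⁻¹) (a * u * e) := by
    refine Or.inr ?_
    rw [P.ord_mul _ _ (pow_ne_zero _ hrs0) (inv_ne_zero (pow_ne_zero _ ht)), P.ord_pow hrs0,
      P.ord_inv (pow_ne_zero _ ht), P.ord_pow ht, hrso, hte, hKz, ← hu, ← ha]
    apply le_of_eq
    ring
  have hti : P.Ge t⁻¹ e := Or.inr (by rw [P.ord_inv ht, hte, neg_neg])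
  have h2e : 2 * e ≤ a * u * e := by nlinarith
  obtain ⟨w, hw⟩ : ∃ w : L, w = 1 + 2 * t⁻¹ + r (s + 1) ^ q * (t ^ K)⁻¹ := ⟨_, rfl⟩
  have hw1 : P.Ge (w - 1) e := by
    have e1 : w - 1 = 2 * t⁻¹ + r (s + 1) ^ q * (t ^ K)⁻¹ := by rw [hw]; ring
    rw [e1]
    exact P.ge_add (P.ge_mono (P.ge_mul h2c hti) (by omega)) (P.ge_mono hrq (by omega))
  have htK : t ^ K = t ^ (K - 1) * t := by
    rw [← pow_succ]
    congr 1
    omega
  have hgw : (Yp / t ^ q ^ (s + 1)) ^ (q - 1) = algebraMap k L 1 * w := by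
    rw [map_one, one_mul, div_pow, ← pow_mul, mul_comm (q ^ (s + 1)) (q - 1), ← hK, hw]
    have e1 : Yp ^ (q - 1) = t ^ K + 2 * t ^ (K - 1) + r (s + 1) ^ q := by
      linear_combination -eD
    rw [e1, htK]
    have e2 : t ^ (K - 1) ≠ 0 := pow_ne_zero _ ht
    field_simp
  obtain ⟨γ, δ, hγ0, hγ1, hgδ, -, hδ2⟩ := T54.root P f q hq (by omega) e he1
    (Yp / t ^ q ^ (s + 1)) w 1 one_ne_zero hgw hw1
  refine ⟨γ, hγ1, ?_⟩
  have hγ' : algebraMap k L γ ≠ 0 := by
    rw [Ne, map_eq_zero_iff _ (algebraMap k L).injective]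
    exact hγ0
  have e3 : Yp / (algebraMap k L γ * t ^ q ^ (s + 1)) = 1 + δ := by
    rw [mul_comm, ← div_div, hgδ]
    field_simp
  have e4 : Yp / (algebraMap k L γ * t ^ q ^ (s + 1)) - 1 + 2 / t =
      (δ + (w - 1)) - r (s + 1) ^ q * (t ^ K)⁻¹ := by
    rw [e3, hw]
    ring
  rw [e4, hte]
  exact P.ge_sub (P.ge_mono hδ2 (by omega)) (P.ge_mono hrq (by omega))

end Pool.CND
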